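import Pool.Agent.H743.JL.Stm

/-! JL-CS: the number of the symmetric matrices with given products (helper348 for helper743). -/

set_option autoImplicit false
set_option linter.all false

open scoped Classical

namespace Pool.Agent.H348.JL

open Finset Module Pool.Agent.H743.JL Pool.Agent.N916.MO

theorem t_CS : S_CS := by
  intro Λ I _ _ _ x g R hR
  obtain ⟨b, hb1, hb2, hb3⟩ := exists_linearIndependent (ZMod 2) (Set.range x)
  have hbf : Fintype b := Fintype.ofFinite b
  obtain ⟨D, ⟨e⟩⟩ : ∃ D : ℕ, Nonempty (Fin D ≃ b) :=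
    ⟨Fintype.card b, ⟨(Fintype.equivFin b).symm⟩⟩
  let v : Fin D → I → ZMod 2 := fun i => (e i : I → ZMod 2)
  have hv : LinearIndependent (ZMod 2) v := hb3.comp e e.injective
  have hp : ∀ i, ∃ p, x p = v i := fun i => hb1 (e i).2
  choose p hp using hp
  -- the dimension
  have hrange : Set.range v = b := by
    ext y
    constructor
    · rintro ⟨i, rfl⟩
      exact (e i).2
    · intro hy
      exact ⟨e.symm ⟨y, hy⟩, by simp [v]⟩
  have hdim1 : finrank (ZMod 2) (Submodule.span (ZMod 2) (Set.range x)) = D := by
    have h1 := finrank_span_eq_card hv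
    rw [hrange, hb2, Fintype.card_fin] at h1
    exact h1
  have hker : LinearMap.ker (Fintype.linearCombination (ZMod 2) x) = R := by
    ext r
    rw [LinearMap.mem_ker, hR, Fintype.linearCombination_apply]
    constructor
    · intro h k
      have := congrFun h k
      simpa [Finset.sum_apply] using this
    · intro h
      funext k
      have := h k
      simpa [Finset.sum_apply] using this
  have hdim2 : D + finrank (ZMod 2) R = Fintype.card Λ := by
    have h1 := LinearMap.finrank_range_add_finrank_ker (Fintype.linearCombination (ZMod 2) x)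
    rw [hker, Fintype.range_linearCombination, hdim1, finrank_fintype_fun_eq_card] at h1
    exact h1
  have hcount := sy_count hv univ (fun i k hk => absurd (mem_univ k) hk) (fun i => g (p i))
  have hle : (univ.filter fun s : Sy I => ∀ p k, ∑ l, s.1 k l * x p l = g p k).card ≤
      (univ.filter fun s : Sy I => ∀ i, ∀ k ∈ (univ : Finset I),
        ∑ l, s.1 k l * v i l = g (p i) k).card := by
    apply card_le_card
    intro s hs
    rw [mem_filter] at hs ⊢
    refine ⟨mem_univ _, fun i k _ => ?_⟩
    rw [← hp i]
    exact hs.2 (p i) k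
  rw [card_univ] at hcount
  have hpow : 2 ^ (Fintype.card Λ * Fintype.card I) =
      2 ^ (D * Fintype.card I) * 2 ^ (finrank (ZMod 2) R * Fintype.card I) := by
    rw [← pow_add, ← add_mul, hdim2]
  rw [hpow]
  have hDΛ : D ≤ Fintype.card Λ := by omega
  calc (univ.filter fun s : Sy I => ∀ p k, ∑ l, s.1 k l * x p l = g p k).card *
        (2 ^ (D * Fintype.card I) * 2 ^ (finrank (ZMod 2) R * Fintype.card I))
      ≤ (univ.filter fun s : Sy I => ∀ i, ∀ k ∈ (univ : Finset I),
        ∑ l, s.1 k l * v i l = g (p i) k).card *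
        (2 ^ (D * Fintype.card I) * 2 ^ (finrank (ZMod 2) R * Fintype.card I)) :=
        Nat.mul_le_mul_right _ hle
    _ = ((univ.filter fun s : Sy I => ∀ i, ∀ k ∈ (univ : Finset I),
        ∑ l, s.1 k l * v i l = g (p i) k).card *
        2 ^ (D * Fintype.card I)) * 2 ^ (finrank (ZMod 2) R * Fintype.card I) := by ring
    _ ≤ (2 ^ (D * D) * Fintype.card (Sy I)) * 2 ^ (finrank (ZMod 2) R * Fintype.card I) :=
        Nat.mul_le_mul_right _ hcount
    _ ≤ (2 ^ (Fintype.card Λ * Fintype.card Λ) * Fintype.card (Sy I)) *
        2 ^ (finrank (ZMod 2) R * Fintype.card I) :=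
        Nat.mul_le_mul_right _ (Nat.mul_le_mul_right _
          (Nat.pow_le_pow_right (by norm_num) (Nat.mul_le_mul hDΛ hDΛ)))
    _ = _ := by ring

end Pool.Agent.H348.JL
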