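import Pool.Agent.H743.JL.Stm

/-! JL-IV: invariant relation spaces (helper348 for helper743). -/

set_option autoImplicit false
set_option linter.all false

open scoped Classical

namespace Pool.Agent.H348.JL

open Finset Module Pool.Agent.H743.JL

/-- multiplication of the blocks -/
def Mf {n : ℕ} (f : Fin n → ZMod 2) (r : Lb n → ZMod 2) : Lb n → ZMod 2 := fun p => f p.1 * r p

/-- a vector in one block -/
def emb {n : ℕ} (i : Fin n) (v : Fin 4 → ZMod 2) : Lb n → ZMod 2 :=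
  fun p => if p.1 = i then v p.2 else 0

theorem TT0 {n : ℕ} (κ : Ty n) (r : Lb n → ZMod 2) (p : Fin n) :
    TT κ r (p, 0) = (κ.1 + κ.2.2 p) * r (p, 0) + κ.2.1 * r (p, 1) := rfl
theorem TT1 {n : ℕ} (κ : Ty n) (r : Lb n → ZMod 2) (p : Fin n) :
    TT κ r (p, 1) = κ.1 * r (p, 0) + κ.2.2 p * r (p, 1) := rfl
theorem TT2 {n : ℕ} (κ : Ty n) (r : Lb n → ZMod 2) (p : Fin n) :
    TT κ r (p, 2) = (κ.1 + κ.2.2 p) * r (p, 2) + κ.2.1 * r (p, 3) := rfl
theorem TT3 {n : ℕ} (κ : Ty n) (r : Lb n → ZMod 2) (p : Fin n) :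
    TT κ r (p, 3) = κ.1 * r (p, 2) + κ.2.2 p * r (p, 3) := rfl

theorem z1 : ∀ t ν a b : ZMod 2, t * (t * a + ν * b) + ν * (t * b) = t * a := by decide
theorem z2 : ∀ t a : ZMod 2, t * (t * a) = t * a := by decide

theorem TTTT {n : ℕ} (κ : Ty n) (h : κ.1 = 0) (r : Lb n → ZMod 2) :
    TT κ (TT κ r) = Mf κ.2.2 r := by
  funext p
  obtain ⟨i, a⟩ := p
  fin_cases a
  · change TT κ (TT κ r) (i, 0) = κ.2.2 i * r (i, 0)
    rw [TT0, TT0, TT1, h, zero_add, zero_mul, zero_add]
    exact z1 _ _ _ _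
  · change TT κ (TT κ r) (i, 1) = κ.2.2 i * r (i, 1)
    rw [TT1, TT1, h, zero_mul, zero_mul, zero_add, zero_add]
    exact z2 _ _
  · change TT κ (TT κ r) (i, 2) = κ.2.2 i * r (i, 2)
    rw [TT2, TT2, TT3, h, zero_add, zero_mul, zero_add]
    exact z1 _ _ _ _
  · change TT κ (TT κ r) (i, 3) = κ.2.2 i * r (i, 3)
    rw [TT3, TT3, h, zero_mul, zero_mul, zero_add, zero_add]
    exact z2 _ _

theorem TT_emb {n : ℕ} (κ : Ty n) (i : Fin n) (v : Fin 4 → ZMod 2) :
    TT κ (emb i v) = emb i ![(κ.1 + κ.2.2 i) * v 0 + κ.2.1 * v 1, κ.1 * v 0 + κ.2.2 i * v 1,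
      (κ.1 + κ.2.2 i) * v 2 + κ.2.1 * v 3, κ.1 * v 2 + κ.2.2 i * v 3] := by
  funext p
  obtain ⟨j, a⟩ := p
  by_cases hj : j = i
  · subst hj
    fin_cases a
    · change TT κ (emb j v) (j, 0) = _
      rw [TT0]; simp [emb]
    · change TT κ (emb j v) (j, 1) = _
      rw [TT1]; simp [emb]
    · change TT κ (emb j v) (j, 2) = _
      rw [TT2]; simp [emb]
    · change TT κ (emb j v) (j, 3) = _
      rw [TT3]; simp [emb]
  · fin_cases a
    · change TT κ (emb i v) (j, 0) = _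
      rw [TT0]; simp [emb, hj]
    · change TT κ (emb i v) (j, 1) = _
      rw [TT1]; simp [emb, hj]
    · change TT κ (emb i v) (j, 2) = _
      rw [TT2]; simp [emb, hj]
    · change TT κ (emb i v) (j, 3) = _
      rw [TT3]; simp [emb, hj]

theorem emb_add {n : ℕ} (i : Fin n) (v w : Fin 4 → ZMod 2) : emb i v + emb i w = emb i (v + w) := by
  funext p
  by_cases h : p.1 = i <;> simp [emb, h]

theorem t_IV : S_IV := by
  intro n Γ hΓ R hR hr0
  obtain ⟨hs1, ⟨κ2, hκ2, hu2, hν2⟩, ⟨κ3, hκ3, hu3, hν3⟩⟩ := hΓ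
  have hA : ∀ κ ∈ Γ, κ.1 = 0 → ∀ r ∈ R, Mf κ.2.2 r ∈ R := by
    intro κ hκ h r hr
    rw [← TTTT κ h]
    exact hR κ hκ _ (hR κ hκ _ hr)
  -- for different indices
  have hpair : ∀ i j, i ≠ j → ∃ f : Fin n → ZMod 2, (∀ r ∈ R, Mf f r ∈ R) ∧ f i = 1 ∧ f j = 0 := by
    intro i j hij
    obtain ⟨κ, hκ, h0, hne⟩ := hs1 i j hij
    have hcases : ∀ a b : ZMod 2, a ≠ b → (a = 1 ∧ b = 0) ∨ (a = 0 ∧ b = 1) := by decide
    rcases hcases _ _ hne with ⟨h1, h2⟩ | ⟨h1, h2⟩
    · exact ⟨κ.2.2, hA κ hκ h0, h1, h2⟩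
    · refine ⟨fun l => 1 + κ.2.2 l, fun r hr => ?_, ?_, ?_⟩
      · have : Mf (fun l => 1 + κ.2.2 l) r = r + Mf κ.2.2 r := by
          funext p
          simp [Mf, add_mul]
        rw [this]
        exact R.add_mem hr (hA κ hκ h0 r hr)
      · simp [h1]
      · change 1 + κ.2.2 j = 0
        rw [h2]; decide
  have hind : ∀ (i : Fin n) (s : Finset (Fin n)), i ∉ s →
      ∃ f : Fin n → ZMod 2, (∀ r ∈ R, Mf f r ∈ R) ∧ f i = 1 ∧ ∀ j ∈ s, f j = 0 := by
    intro i s
    induction s using Finset.induction_on with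
    | empty => exact fun _ => ⟨fun _ => 1, fun r hr => by
        have : Mf (fun _ => 1) r = r := by funext p; simp [Mf]
        rwa [this], rfl, fun j hj => absurd hj (Finset.notMem_empty j)⟩
    | insert j s hj ih =>
      intro hi
      rw [Finset.mem_insert, not_or] at hi
      obtain ⟨f, hf1, hf2, hf3⟩ := ih hi.2
      obtain ⟨g, hg1, hg2, hg3⟩ := hpair i j hi.1
      refine ⟨fun l => f l * g l, fun r hr => ?_, ?_, ?_⟩
      · have : Mf (fun l => f l * g l) r = Mf f (Mf g r) := by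
          funext p
          simp [Mf, mul_assoc]
        rw [this]
        exact hf1 _ (hg1 _ hr)
      · change f i * g i = 1
        rw [hf2, hg2]; decide
      · intro l hl
        rcases Finset.mem_insert.1 hl with h | h
        · change f l * g l = 0
          rw [h, hg3, mul_zero]
        · change f l * g l = 0
          rw [hf3 l h, zero_mul]
  have hblock : ∀ (i : Fin n) (r : Lb n → ZMod 2), r ∈ R → emb i (fun a => r (i, a)) ∈ R := by
    intro i r hr
    obtain ⟨f, hf1, hf2, hf3⟩ := hind i (Finset.univ.erase i) (Finset.notMem_erase i _)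
    have : emb i (fun a => r (i, a)) = Mf f r := by
      funext p
      obtain ⟨j, a⟩ := p
      by_cases hj : j = i
      · subst hj
        simp [emb, Mf, hf2]
      · have := hf3 j (Finset.mem_erase.2 ⟨hj, Finset.mem_univ _⟩)
        simp [emb, Mf, hj, this]
    rw [this]
    exact hf1 r hr
  have hneg : ∀ t : ZMod 2, t + t = 0 := by decide
  have hE12 : ∀ (i : Fin n) (v : Fin 4 → ZMod 2), emb i v ∈ R → emb i ![v 1, 0, v 3, 0] ∈ R := by
    intro i v hv
    have h1 := hR κ2 hκ2 _ hv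
    rw [TT_emb, hu2, hν2] at h1
    have h2 : emb i ((κ2.2.2 i) • v) ∈ R := by
      have : emb i ((κ2.2.2 i) • v) = (κ2.2.2 i) • emb i v := by
        funext p
        by_cases h : p.1 = i <;> simp [emb, h]
      rw [this]
      exact R.smul_mem _ hv
    have h3 := R.add_mem h1 h2
    rw [emb_add] at h3
    have h4 : (![(0 + κ2.2.2 i) * v 0 + 1 * v 1, 0 * v 0 + κ2.2.2 i * v 1,
        (0 + κ2.2.2 i) * v 2 + 1 * v 3, 0 * v 2 + κ2.2.2 i * v 3] + (κ2.2.2 i) • v :
        Fin 4 → ZMod 2) = ![v 1, 0, v 3, 0] := by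
      have q1 : ∀ t a b : ZMod 2, (0 + t) * a + 1 * b + t * a = b := by decide
      have q2 : ∀ t a b : ZMod 2, 0 * a + t * b + t * b = 0 := by decide
      funext a
      fin_cases a
      · exact q1 _ _ _
      · exact q2 _ _ _
      · exact q1 _ _ _
      · exact q2 _ _ _
    rwa [h4] at h3
  have hE : ∀ (i : Fin n) (v : Fin 4 → ZMod 2), emb i v ∈ R → emb i ![v 0, v 0, v 2, v 2] ∈ R := by
    intro i v hv
    have h1 := hR κ3 hκ3 _ hv
    rw [TT_emb, hu3, hν3] at h1
    have h2 : emb i ((κ3.2.2 i) • v) ∈ R := by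
      have : emb i ((κ3.2.2 i) • v) = (κ3.2.2 i) • emb i v := by
        funext p
        by_cases h : p.1 = i <;> simp [emb, h]
      rw [this]
      exact R.smul_mem _ hv
    have h3 := R.add_mem h1 h2
    rw [emb_add] at h3
    have h4 : (![(1 + κ3.2.2 i) * v 0 + 0 * v 1, 1 * v 0 + κ3.2.2 i * v 1,
        (1 + κ3.2.2 i) * v 2 + 0 * v 3, 1 * v 2 + κ3.2.2 i * v 3] + (κ3.2.2 i) • v :
        Fin 4 → ZMod 2) = ![v 0, v 0, v 2, v 2] := by
      have q1 : ∀ t a b : ZMod 2, (1 + t) * a + 0 * b + t * a = a := by decide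
      have q2 : ∀ t a b : ZMod 2, 1 * a + t * b + t * b = a := by decide
      funext a
      fin_cases a
      · exact q1 _ _ _
      · exact q2 _ _ _
      · exact q1 _ _ _
      · exact q2 _ _ _
    rwa [h4] at h3
  have hunit : ∀ (i : Fin n) (a : Fin 4), emb i (Pi.single a 1) ∈ R := by
    intro i
    have v0 : emb i ![0, 1, 1, 0] ∈ R := by
      have := hblock i _ hr0
      have h : (fun a : Fin 4 => (fun p : Lb n => if p.2 = 1 ∨ p.2 = 2 then (1 : ZMod 2) else 0) (i, a)) =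
          ![0, 1, 1, 0] := by
        funext a
        fin_cases a <;> rfl
      rwa [h] at this
    have e0 : emb i ![1, 0, 0, 0] ∈ R := by
      have := hE12 i _ v0
      exact this
    have e01 : emb i ![1, 1, 0, 0] ∈ R := by
      have := hE i _ e0
      exact this
    have e1 : emb i ![0, 1, 0, 0] ∈ R := by
      have := R.add_mem e01 e0
      rw [emb_add] at this
      have h : (![1, 1, 0, 0] + ![1, 0, 0, 0] : Fin 4 → ZMod 2) = ![0, 1, 0, 0] := by decide
      rwa [h] at this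
    have e2 : emb i ![0, 0, 1, 0] ∈ R := by
      have := R.add_mem v0 e1
      rw [emb_add] at this
      have h : (![0, 1, 1, 0] + ![0, 1, 0, 0] : Fin 4 → ZMod 2) = ![0, 0, 1, 0] := by decide
      rwa [h] at this
    have e23 : emb i ![0, 0, 1, 1] ∈ R := by
      have := hE i _ e2
      exact this
    have e3 : emb i ![0, 0, 0, 1] ∈ R := by
      have := R.add_mem e23 e2
      rw [emb_add] at this
      have h : (![0, 0, 1, 1] + ![0, 0, 1, 0] : Fin 4 → ZMod 2) = ![0, 0, 0, 1] := by decide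
      rwa [h] at this
    intro a
    fin_cases a
    · have h : (Pi.single (0 : Fin 4) 1 : Fin 4 → ZMod 2) = ![1, 0, 0, 0] := by decide
      exact h ▸ e0
    · have h : (Pi.single (1 : Fin 4) 1 : Fin 4 → ZMod 2) = ![0, 1, 0, 0] := by decide
      exact h ▸ e1
    · have h : (Pi.single (2 : Fin 4) 1 : Fin 4 → ZMod 2) = ![0, 0, 1, 0] := by decide
      exact h ▸ e2
    · have h : (Pi.single (3 : Fin 4) 1 : Fin 4 → ZMod 2) = ![0, 0, 0, 1] := by decide
      exact h ▸ e3
  rw [eq_top_iff]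
  intro r _
  have hsum : r = ∑ p : Lb n, r p • emb p.1 (Pi.single p.2 1) := by
    funext q
    rw [Finset.sum_apply, Finset.sum_eq_single q]
    · simp [emb]
    · intro p _ hp
      simp only [Pi.smul_apply, emb, smul_eq_mul]
      by_cases h : q.1 = p.1
      · have h2 : q.2 ≠ p.2 := fun h2 => hp (Prod.ext h.symm h2.symm)
        simp [h, h2]
      · simp [h]
    · intro h
      exact absurd (Finset.mem_univ q) h
  rw [hsum]
  exact R.sum_mem fun p _ => R.smul_mem _ (hunit p.1 p.2)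

end Pool.Agent.H348.JL
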