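import Pool.Agent.H743.JL.StmC

/-! JL-K0: the choice of the index (helper348 for helper743). -/

set_option autoImplicit false
set_option linter.all false

open scoped Classical

namespace Pool.Agent.H348.JL

open Finset Module Pool.Agent.H743.JL Pool.Agent.N916.MO
open Pool.Agent.Y703.CQ (nr)
open Pool.Agent.N973.ND (uu)
open Pool.Agent.N916.AM (Nd Bs)

theorem t_K0 : S_K0 := by
  intro M S₀ ι _ _ p hp hNd hcard
  let Λ : ι → ((Bs M S₀ → ZMod 2) × ZMod 2) →ₗ[ZMod 2] ZMod 2 := fun k =>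
    { toFun := fun e => ∑ v : Bs M S₀, e.1 v * nr (p k) v + e.2 * uu (p k)
      map_add' := fun e f => by
        simp only [Prod.fst_add, Prod.snd_add, Pi.add_apply, add_mul, sum_add_distrib]
        ring
      map_smul' := fun c e => by
        simp only [Prod.smul_fst, Prod.smul_snd, Pi.smul_apply, smul_eq_mul, RingHom.id_apply,
          mul_add, mul_sum, mul_assoc] }
  have hΛ : ∀ k e, Λ k e = ∑ v : Bs M S₀, e.1 v * nr (p k) v + e.2 * uu (p k) := fun k e => rfl
  have hsum : ∀ (w : ℕ → ZMod 2) (k : ι), ∑ v : Bs M S₀, w v * nr (p k) v =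
      ∑ v ∈ Bs M S₀, w v * nr (p k) v := fun w k =>
    Finset.sum_coe_sort (Bs M S₀) (fun v => w v * nr (p k) v)
  have h0 : ∀ e, (∀ k, e ∈ LinearMap.ker (Λ k)) → e = 0 := by
    rintro ⟨w, s⟩ he
    by_contra hne
    let w' : ℕ → ZMod 2 := fun v => if h : v ∈ Bs M S₀ then w ⟨v, h⟩ else 0
    have hw' : ∀ v : Bs M S₀, w' v = w v := fun v => dif_pos v.2
    have hcond : (∃ v ∈ Bs M S₀, w' v ≠ 0) ∨ s ≠ 0 := by
      by_contra hc
      push Not at hc
      apply hne
      refine Prod.ext (funext fun v => ?_) hc.2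
      have := hc.1 v.1 v.2
      rw [hw'] at this
      exact this
    obtain ⟨q, hq, hqs⟩ := hNd w' s hcond
    obtain ⟨k, -, rfl⟩ := mem_image.1 hq
    apply hqs
    have h1 := he k
    rw [LinearMap.mem_ker, hΛ] at h1
    rw [← hsum, ← h1]
    congr 1
    exact sum_congr rfl fun v _ => by rw [hw']
  obtain ⟨J₀, hJ, hJ2⟩ := few (fun k => LinearMap.ker (Λ k)) h0
  have hfin : finrank (ZMod 2) ((Bs M S₀ → ZMod 2) × ZMod 2) = (Bs M S₀).card + 1 := by
    rw [finrank_prod, finrank_self, finrank_fintype_fun_eq_card, Fintype.card_coe]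
  rw [hfin] at hJ
  obtain ⟨k0, hk0⟩ : ∃ k0, k0 ∉ J₀ := by
    by_contra hc
    push Not at hc
    have : J₀ = univ := eq_univ_iff_forall.2 hc
    rw [this, card_univ] at hJ
    omega
  refine ⟨k0, ?_⟩
  intro w s hws
  by_contra hc
  push Not at hc
  have h1 : (((fun v : Bs M S₀ => w v), s) : (Bs M S₀ → ZMod 2) × ZMod 2) = 0 := by
    apply hJ2
    intro k hk
    rw [LinearMap.mem_ker, hΛ]
    have hkk : p k ∈ (univ.image p).erase (p k0) := by
      refine mem_erase.2 ⟨fun h => hk0 (hp h ▸ hk), mem_image_of_mem _ (mem_univ _)⟩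
    have := hc _ hkk
    rw [← this, ← hsum]
  rcases hws with ⟨v, hv, hwv⟩ | hs
  · apply hwv
    have := congrFun (congrArg Prod.fst h1) ⟨v, hv⟩
    exact this
  · exact hs (congrArg Prod.snd h1)

end Pool.Agent.H348.JL
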