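import Pool.Agent.H743.JL.Stm

/-! JL-LC: the local count (helper348 for helper743). -/

set_option autoImplicit false
set_option linter.all false

open scoped Classical

namespace Pool.Agent.H348.JL

open Finset Module Pool.Agent.H743.JL Pool.Agent.N916.MO

theorem t_LC : S_LC := by
  intro Λ I _ _ _ R ρ γ K c hργ
  -- the embeddings
  let L1 : R →ₗ[ZMod 2] (Option Λ → ZMod 2) :=
    { toFun := fun r o => o.elim 0 (fun p => (r : Λ → ZMod 2) p)
      map_add' := fun r s => by
        funext o
        cases o <;> simp
      map_smul' := fun a r => by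
        funext o
        cases o <;> simp }
  let L2 : (R × ZMod 2) →ₗ[ZMod 2] (Option Λ → ZMod 2) :=
    { toFun := fun r o => o.elim (r.2 * γ) (fun p => (r.1 : Λ → ZMod 2) p + r.2 * ρ p)
      map_add' := fun r s => by
        funext o
        cases o
        · simp [add_mul]
        · simp [add_mul]; ring
      map_smul' := fun a r => by
        funext o
        cases o
        · simp [mul_assoc]
        · simp [mul_add, mul_assoc] }
  have hL1s : ∀ r p, L1 r (some p) = (r : Λ → ZMod 2) p := fun r p => rfl
  have hL1n : ∀ r, L1 r none = 0 := fun r => rfl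
  have hL2s : ∀ r p, L2 r (some p) = (r.1 : Λ → ZMod 2) p + r.2 * ρ p := fun r p => rfl
  have hL2n : ∀ r, L2 r none = r.2 * γ := fun r => rfl
  have hi1 : Function.Injective L1 := by
    rw [injective_iff_map_eq_zero]
    intro r hr
    ext p
    have := congrFun hr (some p)
    rw [hL1s] at this
    simpa using this
  have hi2 : Function.Injective L2 := by
    rw [injective_iff_map_eq_zero]
    rintro ⟨r, t⟩ hr
    have h2 : ∀ t : ZMod 2, t = 0 ∨ t = 1 := by decide
    have hself : ∀ a b : ZMod 2, a + b = 0 → b = a := by decide
    rcases h2 t with ht | ht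
    · subst ht
      have : r = 0 := by
        ext p
        have := congrFun hr (some p)
        rw [hL2s] at this
        simpa using this
      rw [this]
      rfl
    · exfalso
      subst ht
      rcases hργ with h | h
      · apply h
        have : ρ = (r : Λ → ZMod 2) := by
          funext p
          have := congrFun hr (some p)
          rw [hL2s] at this
          simp only [one_mul, Pi.zero_apply] at this
          exact hself _ _ this
        rw [this]
        exact r.2
      · apply h
        have := congrFun hr none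
        rw [hL2n] at this
        simpa using this
  -- the local sets
  let N : I → Finset (Option Λ → ZMod 2) := fun k =>
    if k ∈ K then univ.filter fun φ : Option Λ → ZMod 2 => ∀ z : R × ZMod 2,
      ∑ l, φ l * L2 z l = (c k • (LinearMap.snd (ZMod 2) R (ZMod 2))) z
    else univ.filter fun φ : Option Λ → ZMod 2 => ∀ z : R,
      ∑ l, φ l * L1 z l = (0 : R →ₗ[ZMod 2] ZMod 2) z
  have hN : ∀ k, (N k).card * 2 ^ (if k ∈ K then 1 else 0) * 2 ^ finrank (ZMod 2) R =
      2 ^ (Fintype.card Λ + 1) := by
    intro k
    by_cases hk : k ∈ K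
    · have h1 := fib L2 hi2 (c k • (LinearMap.snd (ZMod 2) R (ZMod 2)))
      rw [finrank_prod, finrank_self, Fintype.card_option] at h1
      simp only [N, if_pos hk]
      rw [← h1]
      ring
    · have h1 := fib L1 hi1 0
      rw [Fintype.card_option] at h1
      simp only [N, if_neg hk]
      rw [← h1]
      ring
  -- the injection
  have hle : (univ.filter fun q : (Λ → I → ZMod 2) × (I → ZMod 2) =>
    (∀ r ∈ R, ∀ k, ∑ p, r p * q.1 p k = 0) ∧
      ∀ k ∈ K, ∑ p, ρ p * q.1 p k + γ * q.2 k = c k).card ≤ ∏ k, (N k).card := by
    rw [← Fintype.card_piFinset]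
    apply card_le_card_of_injOn
      (fun q k o => o.elim (q.2 k) (fun p => q.1 p k))
    · intro q hq
      rw [mem_coe, mem_filter] at hq
      obtain ⟨-, h1, h2⟩ := hq
      rw [mem_coe, Fintype.mem_piFinset]
      intro k
      by_cases hk : k ∈ K
      · simp only [N, if_pos hk, mem_filter, mem_univ, true_and]
        rintro ⟨r, t⟩
        rw [Fintype.sum_option]
        have e1 : ∑ p : Λ, q.1 p k * L2 (r, t) (some p) = t * ∑ p, ρ p * q.1 p k := by
          have e2 : ∀ p : Λ, q.1 p k * L2 (r, t) (some p) =
              (r : Λ → ZMod 2) p * q.1 p k + t * (ρ p * q.1 p k) := by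
            intro p
            rw [hL2s]
            ring
          rw [sum_congr rfl fun p _ => e2 p, sum_add_distrib, h1 r r.2 k, zero_add, mul_sum]
        change q.2 k * L2 (r, t) none + ∑ p : Λ, q.1 p k * L2 (r, t) (some p) = c k * t
        rw [e1, hL2n, ← h2 k hk]
        ring
      · simp only [N, if_neg hk, mem_filter, mem_univ, true_and]
        intro r
        rw [Fintype.sum_option]
        change q.2 k * L1 r none + ∑ p : Λ, q.1 p k * L1 r (some p) = 0
        rw [hL1n, mul_zero, zero_add, ← h1 r r.2 k]
        exact sum_congr rfl fun p _ => by rw [hL1s, mul_comm]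
    · intro q _ q' _ h
      apply Prod.ext
      · funext p k
        exact congrFun (congrFun h k) (some p)
      · funext k
        exact congrFun (congrFun h k) none
  have hK : 2 ^ K.card = ∏ k : I, 2 ^ (if k ∈ K then 1 else 0) := by
    rw [prod_pow_eq_pow_sum]
    congr 1
    simp
  calc (univ.filter fun q : (Λ → I → ZMod 2) × (I → ZMod 2) =>
    (∀ r ∈ R, ∀ k, ∑ p, r p * q.1 p k = 0) ∧
      ∀ k ∈ K, ∑ p, ρ p * q.1 p k + γ * q.2 k = c k).card * 2 ^ K.card *
        2 ^ (finrank (ZMod 2) R * Fintype.card I)
      ≤ (∏ k, (N k).card) * 2 ^ K.card * 2 ^ (finrank (ZMod 2) R * Fintype.card I) :=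
        Nat.mul_le_mul_right _ (Nat.mul_le_mul_right _ hle)
    _ = ∏ k : I, ((N k).card * 2 ^ (if k ∈ K then 1 else 0) * 2 ^ finrank (ZMod 2) R) := by
        rw [prod_mul_distrib, prod_mul_distrib, hK, prod_const, card_univ, pow_mul]
    _ = 2 ^ ((Fintype.card Λ + 1) * Fintype.card I) := by
        rw [prod_congr rfl fun k _ => hN k, prod_const, card_univ, pow_mul]

end Pool.Agent.H348.JL
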