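import Pool.Agent.H743.JL.Stm

/-! JL-QS: quadratic sums over a coset (helper348 for helper743). -/

set_option autoImplicit false
set_option linter.all false

open scoped Classical

namespace Pool.Agent.H348.JL

open Finset Module Pool.Agent.H743.JL

theorem sgn_add (a b : ZMod 2) : sgn (a + b) = sgn a * sgn b := by
  have h : ∀ x : ZMod 2, x = 0 ∨ x = 1 := by decide
  have h10 : (1 : ZMod 2) ≠ 0 := by decide
  have h11 : (1 + 1 : ZMod 2) = 0 := by decide
  rcases h a with ha | ha <;> rcases h b with hb | hb <;> subst ha <;> subst hb <;>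
    simp [sgn, h11]

theorem sgn_zero : sgn 0 = 1 := by simp [sgn]

theorem sgn_le (a : ZMod 2) : sgn a ≤ 1 := by
  unfold sgn
  split_ifs <;> norm_num

theorem t_QS : S_QS := by
  intro V _ _ _ q β hq V1 a
  have hneg : ∀ t : ZMod 2, t + t = 0 := by decide
  -- the square
  have h1 : (∑ h : V1, sgn (q (a + h))) ^ 2 =
      ∑ g : V1, sgn (q g + β a g) * ∑ h : V1, sgn (β h g) := by
    rw [pow_two, Finset.sum_mul_sum]
    have h2 : ∀ h : V1, ∑ h2 : V1, sgn (q (a + h)) * sgn (q (a + h2)) =
        ∑ g : V1, sgn (q g + β a g) * sgn (β h g) := by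
      intro h
      rw [← Equiv.sum_comp (Equiv.addLeft h)]
      refine Finset.sum_congr rfl fun g _ => ?_
      rw [← sgn_add, ← sgn_add]
      congr 1
      have e1 : (a : V) + ((Equiv.addLeft h g : V1) : V) = (a + h) + g := by
        simp [add_assoc]
      rw [e1, hq (a + h) g, map_add, LinearMap.add_apply]
      have e2 := hneg (q (a + (h : V)))
      linear_combination e2
    rw [Finset.sum_congr rfl fun h _ => h2 h, Finset.sum_comm]
    exact Finset.sum_congr rfl fun g _ => (Finset.mul_sum _ _ _).symm
  rw [h1]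
  have h3 : ∀ g : V1, sgn (q g + β a g) * ∑ h : V1, sgn (β h g) ≤
      if (∀ h' : V1, β h' g = 0) then (Fintype.card V1 : ℝ) else 0 := by
    intro g
    split_ifs with hg
    · have : ∑ h : V1, sgn (β h g) = Fintype.card V1 := by
        rw [Finset.sum_congr rfl fun h _ => by rw [hg h, sgn_zero]]
        simp
      rw [this]
      have h4 : (0 : ℝ) ≤ Fintype.card V1 := Nat.cast_nonneg _
      calc _ ≤ 1 * (Fintype.card V1 : ℝ) := mul_le_mul_of_nonneg_right (sgn_le _) h4
        _ = _ := one_mul _
    · push Not at hg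
      obtain ⟨h0, hh0⟩ := hg
      have hone : β h0 g = 1 := by
        have h : ∀ x : ZMod 2, x ≠ 0 → x = 1 := by decide
        exact h _ hh0
      have : ∑ h : V1, sgn (β h g) = 0 := by
        have e1 : ∑ h : V1, sgn (β h g) = ∑ h : V1, -sgn (β h g) := by
          conv_lhs => rw [← Equiv.sum_comp (Equiv.addRight h0)]
          refine Finset.sum_congr rfl fun h _ => ?_
          have e2 : ((Equiv.addRight h0 h : V1) : V) = (h : V) + h0 := by simp
          rw [e2, map_add, LinearMap.add_apply, sgn_add, hone]
          simp [sgn]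
        rw [Finset.sum_neg_distrib] at e1
        linarith
      rw [this, mul_zero]
  refine (Finset.sum_le_sum fun g _ => h3 g).trans ?_
  rw [← Finset.sum_filter, Finset.sum_const, nsmul_eq_mul, mul_comm]

end Pool.Agent.H348.JL
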