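import Pool.Agent.H743.JL.StmC

/-! JL-SE: the types of the primes (helper348 for helper743). -/

set_option autoImplicit false
set_option linter.all false

open scoped Classical

namespace Pool.Agent.H348.JL

open Finset Module Pool.Agent.H743.JL Pool.Agent.N916.MO
open Pool.Agent.Y703.CQ (nr)
open Pool.Agent.N973.ND (uu)
open scoped NumberTheorySymbols

/-- `nr p 17` as a Jacobi symbol -/
theorem nr17 {p : ℕ} (hp : p.Prime) (h17 : p ≠ 17) : nr p 17 = chi 17 p := by
  have : Fact p.Prime := ⟨hp⟩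
  have h0 : ((17 : ℤ) : ZMod p) ≠ 0 := by
    intro h
    have h1 : (p : ℤ) ∣ 17 := (ZMod.intCast_zmod_eq_zero_iff_dvd 17 p).1 h
    have h2 : p ∣ 17 := by exact_mod_cast h1
    exact h17 ((Nat.prime_dvd_prime_iff_eq hp (by norm_num)).1 h2)
  unfold nr chi
  have h3 := legendreSym.eq_one_iff p h0
  rw [jacobiSym.legendreSym.to_jacobiSym] at h3
  have h4 : ((17 : ℕ) : ZMod p) = ((17 : ℤ) : ZMod p) := by push_cast; rfl
  rw [h4]
  by_cases h : IsSquare ((17 : ℤ) : ZMod p)
  · rw [if_pos h, if_pos (h3.2 h)]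
  · rw [if_neg h, if_neg (fun h5 => h (h3.1 h5))]

/-- for squarefree `t` dividing `M`, `8 ∣ M`: `4 |t|` divides `M` -/
theorem four_dvd {t : ℤ} {M : ℕ} (ht : Squarefree t) (htM : t ∣ (M : ℤ)) (h8 : 8 ∣ M) :
    4 * t.natAbs ∣ M := by
  have htM' : t.natAbs ∣ M := by
    have := Int.natAbs_dvd_natAbs.2 htM
    simpa using this
  have hsq : Squarefree t.natAbs := Int.squarefree_natAbs.2 ht
  by_cases h2 : 2 ∣ t.natAbs
  · obtain ⟨s, hs⟩ := h2
    have hs2 : ¬ 2 ∣ s := by
      rintro ⟨r, hr⟩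
      have := hsq 2 ⟨r, by rw [hs, hr]; ring⟩
      exact absurd (Nat.isUnit_iff.1 this) (by norm_num)
    have hc : Nat.Coprime 8 s := by
      have : Nat.Coprime (2 ^ 3) s :=
        Nat.Coprime.pow_left 3 ((Nat.Prime.coprime_iff_not_dvd Nat.prime_two).2 hs2)
      simpa using this
    have hsM : s ∣ M := (Dvd.intro_left 2 hs.symm).trans htM'
    have h1 := Nat.Coprime.mul_dvd_of_dvd_of_dvd hc h8 hsM
    rw [hs]
    have e : 4 * (2 * s) = 8 * s := by ring
    rw [e]
    exact h1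
  · have hc : Nat.Coprime 4 t.natAbs := by
      have : Nat.Coprime (2 ^ 2) t.natAbs :=
        Nat.Coprime.pow_left 2 ((Nat.Prime.coprime_iff_not_dvd Nat.prime_two).2 h2)
      simpa using this
    exact Nat.Coprime.mul_dvd_of_dvd_of_dvd hc ((show 4 ∣ 8 by norm_num).trans h8) htM'

theorem odd_of_cop {p M : ℕ} (h8 : 8 ∣ M) (h : p.Coprime M) : Odd p := by
  rw [← Nat.not_even_iff_odd]
  intro he
  have h2 : 2 ∣ Nat.gcd p M := Nat.dvd_gcd he.two_dvd ((show 2 ∣ 8 by norm_num).trans h8)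
  rw [h] at h2
  omega

theorem chi_congr {t : ℤ} {M p q : ℕ} (ht : Squarefree t) (htM : t ∣ (M : ℤ)) (h8 : 8 ∣ M)
    (hp : p.Coprime M) (hq : q.Coprime M) (hpq : p % M = q % M) : chi t p = chi t q := by
  have hd := four_dvd ht htM h8
  have hmod : p % (4 * t.natAbs) = q % (4 * t.natAbs) := by
    rw [← Nat.mod_mod_of_dvd p hd, hpq, Nat.mod_mod_of_dvd q hd]
  unfold chi
  rw [jacobiSym.mod_right t (odd_of_cop h8 hp), hmod, ← jacobiSym.mod_right t (odd_of_cop h8 hq)]

/-- the symbol of a product -/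
theorem jac_prod (s : Finset ℕ) (p : ℕ) :
    J(((∏ l ∈ s, l : ℕ) : ℤ) | p) = ∏ l ∈ s, J((l : ℤ) | p) := by
  induction s using Finset.induction_on with
  | empty => simp
  | insert a s ha ih =>
    rw [Finset.prod_insert ha, Finset.prod_insert ha, ← ih, ← jacobiSym.mul_left]
    push_cast
    rfl

/-- the symbol of a squarefree integer in terms of its prime factors -/
theorem jac_sqf {t : ℤ} {p : ℕ} (ht : Squarefree t) (hp4 : p % 4 = 1) :
    J(t | p) = ∏ l ∈ t.natAbs.primeFactors, J((l : ℤ) | p) := by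
  have hodd : Odd p := by rw [Nat.odd_iff]; omega
  have hn1 : J(-1 | p) = 1 := by
    rw [jacobiSym.at_neg_one hodd, ZMod.χ₄_nat_one_mod_four hp4]
  rw [← jac_prod, Nat.prod_primeFactors_of_squarefree (Int.squarefree_natAbs.2 ht)]
  rcases Int.natAbs_eq t with h | h
  · nth_rewrite 1 [h]; rfl
  · nth_rewrite 1 [h]
    rw [← neg_one_mul, jacobiSym.mul_left, hn1, one_mul]

/-- Dirichlet and the Chinese remainder theorem -/
theorem dir2 {m₁ m₂ a₁ a₂ : ℕ} (h1 : m₁ ≠ 0) (h2 : m₂ ≠ 0) (hc : m₁.Coprime m₂)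
    (ha1 : a₁.Coprime m₁) (ha2 : a₂.Coprime m₂) :
    ∃ p : ℕ, p.Prime ∧ p ≡ a₁ [MOD m₁] ∧ p ≡ a₂ [MOD m₂] := by
  obtain ⟨a, ha, ha'⟩ := Nat.chineseRemainder hc a₁ a₂
  have hcop : a.Coprime (m₁ * m₂) := by
    apply Nat.Coprime.mul_right
    · have := ha.gcd_eq
      rw [Nat.Coprime, this]
      exact ha1
    · have := ha'.gcd_eq
      rw [Nat.Coprime, this]
      exact ha2
  obtain ⟨p, -, hp, hpa⟩ := Nat.forall_exists_prime_gt_and_modEq 0 (mul_ne_zero h1 h2) hcop
  exact ⟨p, hp, (hpa.of_dvd (dvd_mul_right _ _)).trans ha, (hpa.of_dvd (dvd_mul_left _ _)).trans ha'⟩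

theorem jac_one {p l : ℕ} (hp : p % 4 = 1) (hl : l.Prime) (hl2 : l ≠ 2) (h : p ≡ 1 [MOD l]) :
    J((l : ℤ) | p) = 1 := by
  rw [jacobiSym.quadratic_reciprocity_one_mod_four' (hl.odd_of_ne_two hl2) hp]
  have : J((p : ℤ) | l) = J(1 | l) := by
    apply jacobiSym.mod_left'
    have h1 := (Int.natCast_modEq_iff.2 h : (p : ℤ) ≡ ((1 : ℕ) : ℤ) [ZMOD (l : ℤ)])
    exact_mod_cast h1
  rw [this, jacobiSym.one_left]

/-- a prime with only one nonresidue -/
theorem one_prime {M l₀ : ℕ} (hM : 0 < M) (h8 : 8 ∣ M) (hl : l₀.Prime) (hlM : l₀ ∣ M) :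
    ∃ p : ℕ, p.Prime ∧ p.Coprime M ∧ p % 4 = 1 ∧ J((l₀ : ℤ) | p) = -1 ∧
      ∀ l : ℕ, l.Prime → l ∣ M → l ≠ l₀ → J((l : ℤ) | p) = 1 := by
  set m₂ : ℕ := M / l₀ ^ M.factorization l₀ with hm₂
  have hm20 : m₂ ≠ 0 := (Nat.ordCompl_pos l₀ hM.ne').ne'
  have hMm : l₀ ^ M.factorization l₀ * m₂ = M := Nat.ordProj_mul_ordCompl_eq_self M l₀
  have hlm : l₀.Coprime m₂ := Nat.coprime_ordCompl hl hM.ne'
  have hdiv : ∀ l : ℕ, l.Prime → l ∣ M → l ≠ l₀ → l ∣ m₂ := by
    intro l hlp hlM' hne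
    rw [← hMm] at hlM'
    rcases hlp.dvd_mul.1 hlM' with h | h
    · exact absurd ((Nat.prime_dvd_prime_iff_eq hlp hl).1 (hlp.dvd_of_dvd_pow h)) hne
    · exact h
  rcases eq_or_ne l₀ 2 with h2 | h2
  · subst h2
    have hc8 : Nat.Coprime 8 m₂ := by
      have : Nat.Coprime (2 ^ 3) m₂ := Nat.Coprime.pow_left 3 hlm
      simpa using this
    obtain ⟨p, hp, hp1, hp2⟩ := dir2 (a₁ := 5) (a₂ := 1) (by norm_num) hm20 hc8 (by norm_num)
      (Nat.coprime_one_left _)
    have hp8 : p % 8 = 5 := hp1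
    have hp4 : p % 4 = 1 := by omega
    refine ⟨p, hp, ?_, hp4, ?_, ?_⟩
    · rw [← hMm]
      apply Nat.Coprime.mul_right
      · apply Nat.Coprime.pow_right
        rw [Nat.coprime_comm, Nat.Prime.coprime_iff_not_dvd Nat.prime_two]
        omega
      · have := hp2.gcd_eq
        rw [Nat.Coprime, this]
        simp
    · have hodd : Odd p := by rw [Nat.odd_iff]; omega
      have h3 : J((2 : ℤ) | p) = -1 := by
        rw [jacobiSym.at_two hodd, ZMod.χ₈_nat_eq_if_mod_eight, if_neg (by omega),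
          if_neg (by omega)]
      exact_mod_cast h3
    · intro l hlp hlM' hne
      exact jac_one hp4 hlp hne (hp2.of_dvd (hdiv l hlp hlM' hne))
  · have : Fact l₀.Prime := ⟨hl⟩
    obtain ⟨c, hc⟩ := FiniteField.exists_nonsquare (F := ZMod l₀) (by
      rw [ZMod.ringChar_zmod_n]; exact h2)
    have hc0 : c ≠ 0 := fun h => hc (h ▸ IsSquare.zero)
    have hcc : (c.val).Coprime l₀ := by
      rw [Nat.coprime_comm, Nat.Prime.coprime_iff_not_dvd hl]
      intro h
      apply hc0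
      have h1 := (ZMod.natCast_eq_zero_iff c.val l₀).2 h
      rwa [ZMod.natCast_zmod_val] at h1
    obtain ⟨p, hp, hp1, hp2⟩ := dir2 (a₁ := c.val) (a₂ := 1) hl.ne_zero hm20 hlm hcc
      (Nat.coprime_one_left _)
    have h8m : 8 ∣ m₂ := by
      have h3 : Nat.Coprime (2 ^ 3) (l₀ ^ M.factorization l₀) := by
        apply Nat.Coprime.pow
        rw [Nat.coprime_primes Nat.prime_two hl]
        exact h2.symm
      have h4 : 2 ^ 3 ∣ l₀ ^ M.factorization l₀ * m₂ := by rw [hMm]; exact h8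
      exact h3.dvd_of_dvd_mul_left h4
    have hp8 : p % 8 = 1 := hp2.of_dvd h8m
    have hp4 : p % 4 = 1 := by omega
    refine ⟨p, hp, ?_, hp4, ?_, ?_⟩
    · rw [← hMm]
      apply Nat.Coprime.mul_right
      · apply Nat.Coprime.pow_right
        have := hp1.gcd_eq
        rw [Nat.Coprime, this]
        exact hcc
      · have := hp2.gcd_eq
        rw [Nat.Coprime, this]
        simp
    · rw [jacobiSym.quadratic_reciprocity_one_mod_four' (hl.odd_of_ne_two h2) hp4,
        ← jacobiSym.legendreSym.to_jacobiSym, legendreSym.eq_neg_one_iff]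
      have h5 : (((p : ℕ) : ℤ) : ZMod l₀) = c := by
        have h6 := (ZMod.natCast_eq_natCast_iff p c.val l₀).2 hp1
        rw [ZMod.natCast_zmod_val] at h6
        rw [← h6]
        push_cast
        rfl
      rw [h5]
      exact hc
    · intro l hlp hlM' hne
      rcases eq_or_ne l 2 with h | h
      · subst h
        have hodd : Odd p := by rw [Nat.odd_iff]; omega
        have h3 : J((2 : ℤ) | p) = 1 := by
          rw [jacobiSym.at_two hodd, ZMod.χ₈_nat_eq_if_mod_eight, if_neg (by omega),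
            if_pos (by omega)]
        exact_mod_cast h3
      · exact jac_one hp4 hlp h (hp2.of_dvd (hdiv l hlp hlM' hne))

theorem chi_one {M l₀ p : ℕ} {t : ℤ} (hM : 0 < M) (ht : Squarefree t) (htM : t ∣ (M : ℤ))
    (hl : l₀.Prime) (hp4 : p % 4 = 1) (h1 : J((l₀ : ℤ) | p) = -1)
    (h2 : ∀ l : ℕ, l.Prime → l ∣ M → l ≠ l₀ → J((l : ℤ) | p) = 1) :
    chi t p = if l₀ ∣ t.natAbs then 1 else 0 := by
  have ht0 : t.natAbs ≠ 0 := Int.natAbs_ne_zero.2 ht.ne_zero
  have htM' : t.natAbs ∣ M := by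
    have := Int.natAbs_dvd_natAbs.2 htM
    simpa using this
  have hJ : J(t | p) = if l₀ ∣ t.natAbs then -1 else 1 := by
    rw [jac_sqf ht hp4]
    have h3 : ∀ l ∈ t.natAbs.primeFactors, J((l : ℤ) | p) = if l₀ = l then -1 else 1 := by
      intro l hl'
      by_cases h : l₀ = l
      · rw [if_pos h, ← h, h1]
      · rw [if_neg h]
        exact h2 l (Nat.prime_of_mem_primeFactors hl')
          ((Nat.dvd_of_mem_primeFactors hl').trans htM') (fun h' => h h'.symm)
    rw [Finset.prod_congr rfl h3, Finset.prod_ite_eq]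
    by_cases h : l₀ ∣ t.natAbs
    · rw [if_pos h, if_pos (Nat.mem_primeFactors.2 ⟨hl, h, ht0⟩)]
    · rw [if_neg h, if_neg (fun h' => h (Nat.dvd_of_mem_primeFactors h'))]
  unfold chi
  rw [hJ]
  by_cases h : l₀ ∣ t.natAbs
  · rw [if_pos h, if_pos h, if_neg (by norm_num)]
  · rw [if_neg h, if_neg h, if_pos rfl]

/-- a prime dividing exactly one of two squarefree integers -/
theorem exists_diff {a b : ℤ} (ha : Squarefree a) (hb : Squarefree b) (h1 : a ≠ b) (h2 : a ≠ -b) :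
    ∃ l : ℕ, l.Prime ∧ ((l ∣ a.natAbs ∧ ¬ l ∣ b.natAbs) ∨ (l ∣ b.natAbs ∧ ¬ l ∣ a.natAbs)) := by
  by_contra hc
  push Not at hc
  have hab : a.natAbs = b.natAbs := by
    rw [← Nat.prod_primeFactors_of_squarefree (Int.squarefree_natAbs.2 ha),
      ← Nat.prod_primeFactors_of_squarefree (Int.squarefree_natAbs.2 hb)]
    congr 1
    ext l
    rw [Nat.mem_primeFactors, Nat.mem_primeFactors]
    constructor
    · rintro ⟨hl, hd, -⟩
      exact ⟨hl, (hc l hl).1 hd, Int.natAbs_ne_zero.2 hb.ne_zero⟩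
    · rintro ⟨hl, hd, -⟩
      exact ⟨hl, (hc l hl).2 hd, Int.natAbs_ne_zero.2 ha.ne_zero⟩
  rcases Int.natAbs_eq_natAbs_iff.1 hab with h | h
  · exact h1 h
  · exact h2 h

theorem t_SE : S_SE := by
  intro n t M hM h8 h17 ht hne
  have h17' : (17 : ℤ) ∣ (M : ℤ) := by exact_mod_cast h17
  have hsq17 : Squarefree (17 : ℤ) := by
    have : Prime (17 : ℤ) := by
      have := Nat.prime_iff_prime_int.1 (show Nat.Prime 17 by norm_num)
      exact_mod_cast this
    exact this.squarefree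
  have h2M : 2 ∣ M := (show 2 ∣ 8 by norm_num).trans h8
  have hne17 : ∀ p : ℕ, p.Coprime M → p.Prime → p ≠ 17 := by
    rintro p hp hpp rfl
    have : 17 ∣ Nat.gcd 17 M := Nat.dvd_gcd dvd_rfl h17
    rw [hp] at this
    omega
  refine ⟨⟨?_, ?_, ?_⟩, ?_⟩
  · intro i j hij
    obtain ⟨l₀, hl, hd⟩ := exists_diff (ht i).1 (ht j).1 (hne i j hij).1 (hne i j hij).2
    have hnat : ∀ i, (t i).natAbs ∣ M := by
      intro i
      have := Int.natAbs_dvd_natAbs.2 (ht i).2
      simpa using this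
    have hlM : l₀ ∣ M := by
      rcases hd with h | h
      · exact h.1.trans (hnat i)
      · exact h.1.trans (hnat j)
    obtain ⟨p, hp, hpM, hp4, hJ1, hJ2⟩ := one_prime hM h8 hl hlM
    refine ⟨ty t p, mem_filter.2 ⟨mem_univ _, p, hp, hpM, rfl⟩, ?_, ?_⟩
    · change uu p = 0
      unfold uu
      rw [if_neg (by omega)]
    · change chi (t i) p ≠ chi (t j) p
      rw [chi_one hM (ht i).1 (ht i).2 hl hp4 hJ1 hJ2, chi_one hM (ht j).1 (ht j).2 hl hp4 hJ1 hJ2]
      rcases hd with h | h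
      · rw [if_pos h.1, if_neg h.2]
        decide
      · rw [if_neg h.2, if_pos h.1]
        decide
  · obtain ⟨p, hp, hpM, hp4, hJ1, hJ2⟩ := one_prime hM h8 (show Nat.Prime 17 by norm_num) h17
    refine ⟨ty t p, mem_filter.2 ⟨mem_univ _, p, hp, hpM, rfl⟩, ?_, ?_⟩
    · change uu p = 0
      unfold uu
      rw [if_neg (by omega)]
    · change nr p 17 = 1
      rw [nr17 hp (hne17 p hpM hp), chi_one hM hsq17 h17' (show Nat.Prime 17 by norm_num) hp4 hJ1
        hJ2, if_pos (by norm_num)]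
  · -- `3` modulo `8` and `1` modulo the odd part
    set m₂ : ℕ := M / 2 ^ M.factorization 2 with hm₂
    have hm20 : m₂ ≠ 0 := (Nat.ordCompl_pos 2 hM.ne').ne'
    have hMm : 2 ^ M.factorization 2 * m₂ = M := Nat.ordProj_mul_ordCompl_eq_self M 2
    have hlm : Nat.Coprime 2 m₂ := Nat.coprime_ordCompl Nat.prime_two hM.ne'
    have hc8 : Nat.Coprime 8 m₂ := by
      have : Nat.Coprime (2 ^ 3) m₂ := Nat.Coprime.pow_left 3 hlm
      simpa using this
    obtain ⟨p, hp, hp1, hp2⟩ := dir2 (a₁ := 3) (a₂ := 1) (by norm_num) hm20 hc8 (by norm_num)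
      (Nat.coprime_one_left _)
    have hp8 : p % 8 = 3 := hp1
    have hpM : p.Coprime M := by
      rw [← hMm]
      apply Nat.Coprime.mul_right
      · apply Nat.Coprime.pow_right
        rw [Nat.coprime_comm, Nat.Prime.coprime_iff_not_dvd Nat.prime_two]
        omega
      · have := hp2.gcd_eq
        rw [Nat.Coprime, this]
        simp
    refine ⟨ty t p, mem_filter.2 ⟨mem_univ _, p, hp, hpM, rfl⟩, ?_, ?_⟩
    · change uu p = 1
      unfold uu
      rw [if_pos (by omega)]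
    · change nr p 17 = 0
      rw [nr17 hp (hne17 p hpM hp)]
      unfold chi
      have hodd : Odd p := by rw [Nat.odd_iff]; omega
      have h17m : 17 ∣ m₂ := by
        have h3 : Nat.Coprime 17 (2 ^ M.factorization 2) := Nat.Coprime.pow_right _ (by norm_num)
        have h4 : 17 ∣ 2 ^ M.factorization 2 * m₂ := by rw [hMm]; exact h17
        exact h3.dvd_of_dvd_mul_left h4
      have h5 : J(17 | p) = 1 := by
        have h6 : J(((17 : ℕ) : ℤ) | p) = J((p : ℤ) | 17) :=
          jacobiSym.quadratic_reciprocity_one_mod_four (by norm_num) hodd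
        have h7 : J((p : ℤ) | 17) = J(1 | 17) := by
          apply jacobiSym.mod_left'
          have h8 : p % 17 = 1 := hp2.of_dvd h17m
          omega
        have h9 : ((17 : ℕ) : ℤ) = 17 := by norm_num
        rw [h9] at h6
        rw [h6, h7, jacobiSym.one_left]
      rw [if_pos h5]
  · intro p q hp hq hpM hqM hpq
    have h4 : p % 4 = q % 4 := by
      have h4M : 4 ∣ M := (show 4 ∣ 8 by norm_num).trans h8
      rw [← Nat.mod_mod_of_dvd p h4M, hpq, Nat.mod_mod_of_dvd q h4M]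
    refine Prod.ext ?_ (Prod.ext ?_ ?_)
    · change uu p = uu q
      unfold uu
      rw [h4]
    · change nr p 17 = nr q 17
      rw [nr17 hp (hne17 p hpM hp), nr17 hq (hne17 q hqM hq)]
      exact chi_congr hsq17 h17' h8 hpM hqM hpq
    · funext i
      exact chi_congr (ht i).1 (ht i).2 h8 hpM hqM hpq

end Pool.Agent.H348.JL
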