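import Pool.Agent.H743.JL.StmC

/-! JL-TW: the squarefree part (helper348 for helper743). -/

set_option autoImplicit false
set_option linter.all false

open scoped Classical

namespace Pool.Agent.H348.JL

open Finset Module Pool.Agent.H743.JL Pool.Agent.N916.MO

theorem tw_eq (t n : ℤ) (ht : t ≠ 0) : ∃ t' n' : ℤ, t' ∣ t ∧ n' ∣ n ∧ IsCoprime t' n' ∧
    tw t n = t' * n' := by
  have hg : (Int.gcd t n : ℤ) ≠ 0 := by
    intro h
    have h1 : Int.gcd t n = 0 := by exact_mod_cast h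
    exact ht (Int.gcd_eq_zero_iff.1 h1).1
  obtain ⟨t', ht'⟩ := Int.gcd_dvd_left t n
  obtain ⟨n', hn'⟩ := Int.gcd_dvd_right t n
  refine ⟨t', n', ⟨_, by rw [mul_comm]; exact ht'⟩, ⟨_, by rw [mul_comm]; exact hn'⟩, ?_, ?_⟩
  · rw [Int.isCoprime_iff_gcd_eq_one]
    have hpos : 0 < Int.gcd t n := Nat.pos_of_ne_zero (by exact_mod_cast hg)
    have h1 := Int.gcd_div_gcd_div_gcd hpos
    have e1 : t / (Int.gcd t n : ℤ) = t' := by
      nth_rewrite 1 [ht']
      exact Int.mul_ediv_cancel_left _ hg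
    have e2 : n / (Int.gcd t n : ℤ) = n' := by
      nth_rewrite 1 [hn']
      exact Int.mul_ediv_cancel_left _ hg
    rwa [e1, e2] at h1
  · unfold tw
    apply Int.ediv_eq_of_eq_mul_right (pow_ne_zero 2 hg)
    nth_rewrite 1 [ht']
    nth_rewrite 2 [hn']
    ring

theorem t_TW : S_TW := by
  intro t ht
  have ht0 : t ≠ 0 := ht.ne_zero
  refine ⟨fun n hn => ?_, fun n P hn hP => ?_⟩
  · obtain ⟨t', n', h1, h2, h3, h4⟩ := tw_eq t n ht0
    rw [h4]
    refine ⟨squarefree_mul_iff.2 ⟨h3.isRelPrime, ht.squarefree_of_dvd h1,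
      hn.squarefree_of_dvd h2⟩, fun p hp hpd => ?_⟩
    rcases (Nat.prime_iff_prime_int.1 hp).dvd_or_dvd hpd with h | h
    · exact Or.inl (h.trans h1)
    · exact Or.inr (h.trans h2)
  · have hgcd : Int.gcd t (n * P) = Int.gcd t n := by
      rw [Int.gcd, Int.gcd, Int.natAbs_mul]
      have hc : Nat.Coprime P.natAbs t.natAbs := by
        have := Int.isCoprime_iff_gcd_eq_one.1 hP
        exact Nat.Coprime.symm this
      exact Nat.Coprime.gcd_mul_right_cancel_right _ hc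
    unfold tw
    rw [hgcd]
    have hdvd : (Int.gcd t n : ℤ) ^ 2 ∣ t * n := by
      rw [pow_two]
      exact mul_dvd_mul (Int.gcd_dvd_left t n) (Int.gcd_dvd_right t n)
    rw [← mul_assoc, Int.mul_comm (t * n) P, Int.mul_ediv_assoc _ hdvd, mul_comm]

end Pool.Agent.H348.JL
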